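import Pool.Agent.H73.MX.MDUAL
import Pool.Agent.H91.SV.Targets

/-!
# Row MDUAL of `sv_modules` (helper73, MP_c62aed_lc)
-/

namespace Pool.Agent.H73.SV

open Finset Matrix Pool.Agent.H91.SV
open Pool.Agent.H1.LP (Clause viol)
open Pool.Agent.H49.SDP (SRelax)
open Pool.Agent.H70.SDP (pencil dual psd_fromBlocks)
open Pool.Agent.H73.MX (pencil_blocks trace_mul_blocks)

theorem isSymm_blocks {s r : ℕ} (v : Fin s → ℝ) (S : Matrix (Fin r) (Fin r) ℝ) (hS : S.IsSymm) :
    (fromBlocks (diagonal v) 0 0 S).IsSymm := by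
  unfold Matrix.IsSymm
  rw [fromBlocks_transpose, transpose_zero, transpose_zero, diagonal_transpose, hS]

/-- a linear inequality system and a semidefinite constraint as one semidefinite constraint -/
theorem blocks_iff {s r d : ℕ} (A : Fin s → Fin d → ℝ) (b : Fin s → ℝ)
    (B0 : Matrix (Fin r) (Fin r) ℝ) (B : Fin d → Matrix (Fin r) (Fin r) ℝ) (y : Fin d → ℝ) :
    (pencil (fromBlocks (diagonal b) 0 0 B0)
      (fun k => fromBlocks (diagonal (fun i => -A i k)) 0 0 (B k)) y).PosSemidef ↔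
    (∀ i, ∑ k, A i k * y k ≤ b i) ∧ (B0 + ∑ k, y k • B k).PosSemidef := by
  rw [pencil_blocks]
  constructor
  · intro hy
    refine ⟨fun i => ?_, hy.submatrix Sum.inr⟩
    have h2 := hy.diag_nonneg (i := Sum.inl i)
    rw [fromBlocks_apply₁₁, diagonal_apply_eq] at h2
    linarith
  · rintro ⟨h1, h2⟩
    refine psd_fromBlocks ?_ h2
    rw [posSemidef_diagonal_iff]
    intro i
    have := h1 i
    linarith

theorem pencil_submatrix {s r : Type} [Fintype s] [Fintype r] {d : ℕ} (e : s ≃ r)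
    (A0 : Matrix r r ℝ) (A : Fin d → Matrix r r ℝ) (y : Fin d → ℝ) :
    A0.submatrix e e + ∑ k, y k • (A k).submatrix e e = (pencil A0 A y).submatrix e e := by
  ext i j
  unfold pencil
  simp only [Matrix.add_apply, Matrix.sum_apply, Matrix.smul_apply, submatrix_apply]

theorem pf_MDUAL (_hS : Pool.Agent.H49.SDP.S_SDUAL) : S_MDUAL := by
  intro n m P phi de hne h η hη
  classical
  obtain ⟨x0, hx0⟩ := hne
  have key : ∀ y : Fin P.dim → ℝ, ∑ i, P.loss (phi i) y - de =
      ∑ k, (∑ i, P.w (phi i) k) * y k + (∑ i, P.w0 (phi i) - de) := by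
    intro y
    unfold MRelax.loss
    rw [sum_add_distrib, sum_comm]
    simp only [sum_mul]
    ring
  have hherm : ∀ v : Fin P.size → ℝ, ∀ S : Matrix (Fin P.ord) (Fin P.ord) ℝ, S.IsSymm →
      (fromBlocks (diagonal v) 0 0 S).IsHermitian := by
    intro v S hS
    unfold Matrix.IsHermitian
    rw [conjTranspose_eq_transpose_of_trivial, isSymm_blocks v S hS]
  have hpsd : ∀ x ∈ P.cell, (pencil (fromBlocks (diagonal P.b) 0 0 P.B0)
      (fun k => fromBlocks (diagonal (fun i => -P.A i k)) 0 0 (P.B k)) (P.pt x)).PosSemidef :=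
    fun x hx => (blocks_iff P.A P.b P.B0 P.B (P.pt x)).mpr ⟨P.feas x hx, P.feasB x hx⟩
  obtain ⟨L, c, hL, hc, hLc⟩ := dual (X := {x // x ∈ P.cell})
    (hherm P.b P.B0 P.symm0) (fun k => hherm (fun i => -P.A i k) (P.B k) (P.symm k))
    (fun x => P.pt x.1) (P.pt x0) (hpsd x0 hx0) (fun k => ∑ i, P.w (phi i) k)
    (∑ i, P.w0 (phi i) - de) (fun y hy => by
      rw [← key]
      obtain ⟨h1, h3⟩ := (blocks_iff P.A P.b P.B0 P.B y).mp hy
      have := h y h1 h3
      linarith) η hη
  refine ⟨fun i => L (Sum.inl i) (Sum.inl i), L.submatrix Sum.inr Sum.inr, c,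
    fun i => hL.diag_nonneg, hL.submatrix Sum.inr, hc, fun x hx => ?_⟩
  have h4 := hLc ⟨x, hx⟩
  rw [pencil_blocks, trace_mul_blocks, ← key] at h4
  rw [abs_sub_comm]
  refine le_trans (le_of_eq ?_) h4
  congr 1
  ring

/-- one semidefinite constraint instead of both kinds of constraints -/
theorem toS_ex (n : ℕ) (P : MRelax n) :
    ∃ Q : SRelax n, Q.cell = P.cell ∧ Q.ord = P.size + P.ord ∧
      ∀ (m : ℕ) (phi : Fin m → Clause n) (de : ℝ), P.Refutes phi de → Q.Refutes phi de := by
  classical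
  let e : Fin (P.size + P.ord) ≃ Fin P.size ⊕ Fin P.ord := finSumFinEquiv.symm
  have hsub : ∀ y : Fin P.dim → ℝ,
      (fromBlocks (diagonal P.b) 0 0 P.B0).submatrix e e +
        ∑ k, y k • (fromBlocks (diagonal (fun i => -P.A i k)) 0 0 (P.B k)).submatrix e e =
      (pencil (fromBlocks (diagonal P.b) 0 0 P.B0)
        (fun k => fromBlocks (diagonal (fun i => -P.A i k)) 0 0 (P.B k)) y).submatrix e e :=
    fun y => pencil_submatrix e _ _ y
  refine ⟨{ cell := P.cell, dim := P.dim, ord := P.size + P.ord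
            A0 := (fromBlocks (diagonal P.b) 0 0 P.B0).submatrix e e
            A := fun k => (fromBlocks (diagonal (fun i => -P.A i k)) 0 0 (P.B k)).submatrix e e
            pt := P.pt, w := P.w, w0 := P.w0
            symm0 := (isSymm_blocks P.b P.B0 P.symm0).submatrix e
            symm := fun k => (isSymm_blocks (fun i => -P.A i k) (P.B k) (P.symm k)).submatrix e
            feas := ?_, bdd := P.bdd, sound := P.sound }, rfl, rfl, ?_⟩
  · intro x hx
    rw [hsub]
    exact ((blocks_iff P.A P.b P.B0 P.B (P.pt x)).mpr ⟨P.feas x hx, P.feasB x hx⟩).submatrix e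
  · intro m phi de h y hy
    have hy' := hy
    change ((fromBlocks (diagonal P.b) 0 0 P.B0).submatrix e e +
      ∑ k, y k • (fromBlocks (diagonal (fun i => -P.A i k)) 0 0 (P.B k)).submatrix e
        e).PosSemidef at hy'
    rw [hsub, posSemidef_submatrix_equiv] at hy'
    obtain ⟨h1, h3⟩ := (blocks_iff P.A P.b P.B0 P.B y).mp hy'
    exact h y h1 h3

end Pool.Agent.H73.SV
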